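import Pool.Agent.N322.EW.LocS
import Pool.Agent.H985R3.TA.STA

/-!
Project EW, part 11 (helper322): a given vertex of the bulk is rarely visited by exactly one of the
two paths (if there are no long excursions).
-/

set_option autoImplicit false

namespace Pool.Agent.N322.EW

open H974 H12S H389NS H984N H984P H342P Finset
open Pool.Agent.N116.EW

theorem annUp : ∃ C : ℝ, 0 < C ∧ AnnUp C := by
  obtain ⟨C, hC, h⟩ := H985T.st_A
  exact ⟨C, hC, fun r R hr hR c1 c2 S => h r R hr hR c1 c2 S⟩

/-- **EW11**: a given vertex of the bulk is rarely visited by exactly one of the two paths. -/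
theorem loc (h1 : ∀ b, S_XE b) (h2 : ∀ b, S_XD b) (h3 : ∀ b, S_T2 b) : S_LOC :=
  locA annUp h1 h2 h3

end Pool.Agent.N322.EW
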