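import Pool.Agent.N116.EW.Vis
import Pool.Agent.N144.EW.DetA

/-!
Project EW, part 11 (helper322): deterministic part. A state visited by exactly one of the two
paths, without long excursions: a flipped edge with mixed arms, two arms at the vertex up to this
edge and two arms of the critical configuration beyond it.
-/

set_option autoImplicit false

namespace Pool.Agent.N322.EW

open H974 H12S H389NS H984N H984P H342P Finset
open Pool.Agent.N116.EW Pool.Agent.N144.EW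

/-! ### Distances -/

theorem sd_tri (u v w : Vtx) : sd u w ≤ sd u v + sd v w := by
  have h1 := sd_le_iff.1 (le_refl (sd u v))
  have h2 := sd_le_iff.1 (le_refl (sd v w))
  rw [sd_le_iff]
  omega

theorem sd_comm (u v : Vtx) : sd u v = sd v u := by
  unfold sd
  rw [abs_sub_comm, abs_sub_comm u.2]

theorem nrm_sd (c : Vtx) (e : Edg) : (nrm c e : ℤ) = sd (src e) c := by
  obtain ⟨x, y, b⟩ := e
  unfold nrm sd
  simp only [src_mk]
  push_cast
  rw [Int.abs_eq_natAbs, Int.abs_eq_natAbs]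

theorem face_x (x : Vtx) (q : Q4) : sd (face ((x, q) : St)) x ≤ 1 := by
  obtain ⟨a, b⟩ := x
  rw [sd_le_iff]
  cases q <;> simp only [face_ne, face_nw, face_sw, face_se] <;> omega

/-! ### Dual paths and boxes -/

theorem exitBoxD {H : Set Edg} {c : Vtx} {m : ℕ} {x w : Vtx} (hw : (m : ℤ) ≤ sd w c)
    (h : DReach H x w) : ∃ w', (m : ℤ) ≤ sd w' c ∧ DReach (H ∩ ↑(blk c m)) x w' := by
  induction h using Relation.ReflTransGen.head_induction_on with
  | refl => exact ⟨w, hw, DReach.refl _ _⟩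
  | @head x x' hxx' _ ih =>
    by_cases hb : (m : ℤ) ≤ sd x c
    · exact ⟨x, hb, DReach.refl _ _⟩
    · obtain ⟨w', hw'1, hw'2⟩ := ih
      refine ⟨w', hw'1, Relation.ReflTransGen.head ?_ hw'2⟩
      obtain ⟨g, hg, hcase⟩ := hxx'
      refine ⟨g, ⟨hg, ?_⟩, hcase⟩
      rw [not_le, sd_lt_iff] at hb
      rw [Finset.mem_coe, blk_iff, sd_le_iff, sd_le_iff]
      obtain ⟨a, b, _ | _⟩ := g
      · simp only [dsrc_false, dtgt_mk, src_mk, tgt_false] at hcase ⊢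
        rcases hcase with ⟨h1, h2⟩ | ⟨h1, h2⟩
        · subst h1
          simp only at hb
          omega
        · subst h2
          simp only at hb
          omega
      · simp only [dsrc_true, dtgt_mk, src_mk, tgt_true] at hcase ⊢
        rcases hcase with ⟨h1, h2⟩ | ⟨h1, h2⟩
        · subst h1
          simp only at hb
          omega
        · subst h2
          simp only at hb
          omega

theorem t2_of {A : Set Edg} {c x w y g : Vtx} {r m : ℕ} {H H' : Set Edg} (hrm : r ≤ m)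
    (hx : sd x c ≤ r) (hw : (m : ℤ) ≤ sd w c) (h : Reach H x w)
    (hH : ∀ e ∈ H, e ∈ blk c m → e ∈ A) (hy : sd y c ≤ (r : ℤ) + 1) (hg : (m : ℤ) ≤ sd g c)
    (h' : DReach H' y g) (hH' : ∀ e ∈ H', e ∈ blk c m → e ∉ A) : T2 c r m A := by
  constructor
  · obtain ⟨w', hw'1, hw'2⟩ := exitBox hw h (hx.trans (by exact_mod_cast hrm))
    obtain ⟨u, hu1, hu2⟩ := lastBox (c := c) (d := r) hx hw'2
    refine ⟨u, w', ?_, ?_, hu2.mono ?_⟩
    · rw [sd_le_iff] at hu1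
      unfold inR
      omega
    · obtain ⟨h1, h2, h3⟩ := hw'1
      rcases h3 with h3 | h3
      · have h4 : (m : ℤ) ≤ |w'.1 - c.1| := h3.ge
        rw [le_abs] at h4
        omega
      · have h4 : (m : ℤ) ≤ |w'.2 - c.2| := h3.ge
        rw [le_abs] at h4
        omega
    · rintro e ⟨⟨h1, h2⟩, h3⟩
      exact ⟨hH e h1 h2, h2, h3⟩
  · obtain ⟨w', hw'1, hw'2⟩ := exitBoxD hg h'
    obtain ⟨u, hu1, hu2⟩ := lastBoxD (c := c) (d := r) hy hw'2
    refine ⟨u, w', ?_, ?_, hu2.mono ?_⟩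
    · rw [sd_le_iff] at hu1
      unfold inR
      push_cast
      omega
    · rw [le_sd_iff] at hw'1
      omega
    · rintro e ⟨⟨h1, h2⟩, h3⟩
      exact ⟨⟨h2, h3⟩, hH' e h1 h2⟩

/-- No wired edge near a vertex of the bulk. -/
theorem no_wir {D : Dm} {c : Vtx} {m : ℕ} (h : (m : ℤ) + 1 ≤ D.bd c) {g : Edg}
    (hg : g ∈ blk c m) : g ∉ D.wir := by
  intro hw
  have h1 := bd_wir hw
  have h2 := bd_near (D := D) (blk_iff.1 hg).1
  omega

/-- Two arms of the critical configuration beyond the flipped edge. -/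
theorem t2_out {D : Dm} {B : Finset Edg} {c x y : Vtx} {r m : ℕ} (hrm : r ≤ m)
    (hb : (m : ℤ) + 1 ≤ D.bd c) (hx : sd x c ≤ r) (hy : sd y c ≤ (r : ℤ) + 1) (hxc : x ∈ D.clu B)
    (hyc : y ∈ D.dclu B) : T2 c r m ↑B := by
  obtain ⟨g, hg, hgy⟩ := hyc
  refine t2_of (H := D.cfg B) (H' := ↑D.edges \ D.cfg B) hrm hx
    (zero_far (D := D) (by omega)) (Reach.symm hxc) ?_ hy (outer_far hg (by omega)) hgy.symm ?_
  · rintro e (he | he) hem
    · exact he
    · exact absurd he (no_wir hb hem)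
  · rintro e ⟨_, he⟩ _ h
    exact he (Or.inl h)

/-- Mixed arms at a flipped edge. -/
theorem xe_of {D : Dm} {F G : Finset Edg} {e : Edg} {x v w : Vtx} (heF : e ∉ D.cfg F)
    (hxv : En e x v) (hx : x ∈ D.clu F) (hv : v ∉ D.clu F)
    (hvw : Reach {g | g ∈ D.cfg G ∧ src g ∉ D.clu F ∧ tgt g ∉ D.clu F} v w) {m : ℕ}
    (hm : 1 ≤ m) (hmb : (m : ℤ) + 1 ≤ D.bd (src e)) (hwc : (m : ℤ) ≤ sd w (src e)) :
    XE e m ↑F ↑G := by
  have hm0 : (1 : ℤ) ≤ m := by exact_mod_cast hm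
  have hx1 : sd x (src e) ≤ 1 := by
    rcases hxv with ⟨h, _⟩ | ⟨h, _⟩
    · exact end_near (Or.inl h)
    · exact end_near (Or.inr h)
  have hv1 : sd v (src e) ≤ 1 := by
    rcases hxv with ⟨_, h⟩ | ⟨_, h⟩
    · exact end_near (Or.inr h)
    · exact end_near (Or.inl h)
  have hsub : CB (src e) m (↑F \ {e}) x ⊆ D.clu F := by
    intro u hu
    have h1 : Reach (D.cfg F) x u := by
      refine Reach.mono ?_ hu
      rintro g ⟨⟨h1, _⟩, _⟩
      exact Or.inl h1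
    exact Reach.trans hx h1
  refine ⟨x, v, hxv, fun h => hv (hsub h), ?_, ?_⟩
  · obtain ⟨w', hw'1, hw'2⟩ := exitBox (c := src e) (m := m) (zero_far (D := D) (by omega))
      (Reach.symm hx) (hx1.trans hm0)
    refine ⟨w', hw'1, ?_⟩
    refine Reach.mono ?_ hw'2
    rintro g ⟨h1 | h1, h2⟩
    · refine ⟨⟨h1, ?_⟩, h2⟩
      rintro rfl
      exact heF (Or.inl h1)
    · exact absurd h1 (no_wir hmb h2)
  · obtain ⟨w', hw'1, hw'2⟩ := exitBox (c := src e) (m := m) hwc hvw (hv1.trans hm0)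
    refine ⟨w', hw'1, Reach.mono ?_ hw'2⟩
    rintro g ⟨⟨h1, h2, h3⟩, h4⟩
    refine ⟨⟨⟨?_, ?_⟩, fun h => h2 (hsub h), fun h => h3 (hsub h)⟩, h4⟩
    · rcases h1 with h1 | h1
      · exact h1
      · exact absurd h1 (no_wir hmb h4)
    · rintro rfl
      rcases hxv with ⟨h, _⟩ | ⟨h, _⟩
      · exact h2 (h ▸ hx)
      · exact h3 (h ▸ hx)

/-- Mixed dual arms at a flipped edge. -/
theorem xd_of {D : Dm} {F G : Finset Edg} {e : Edg} {y z w : Vtx} (heG : e ∈ G)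
    (hyz : (y = dsrc e ∧ z = dtgt e) ∨ (y = dtgt e ∧ z = dsrc e))
    (hyc : y ∈ D.dclu G) (hz : z ∉ D.dclu G)
    (hzw : DReach {g | g ∈ D.edges ∧ g ∉ D.cfg F ∧ dsrc g ∉ D.dclu G ∧ dtgt g ∉ D.dclu G} z w)
    {m : ℕ} (hm : 1 ≤ m) (hmj : (m : ℤ) + 2 ≤ D.bd (src e)) (hwc : (m : ℤ) ≤ sd w (dsrc e)) :
    XD e m ↑F ↑G := by
  have hye : y = dsrc e ∨ y = dtgt e := hyz.imp And.left And.left
  have hze : z = dsrc e ∨ z = dtgt e := (hyz.imp And.right And.right).symm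
  have hm0 : (1 : ℤ) ≤ m := by exact_mod_cast hm
  have hcs : sd (dsrc e) (src e) ≤ 1 := (face_near (Or.inl rfl)).1
  have hin : ∀ g : Edg, dl g ∈ blk (dsrc e) m → g ∈ D.edges ∧ g ∉ D.wir := by
    intro g hg
    have h1 := (blk_iff.1 hg).2
    rw [tgt_dl] at h1
    have h2 : sd (src g) (src e) ≤ m + 1 := by
      rw [sd_le_iff] at h1 hcs ⊢
      have e1 : (dtgt g).1 = (src g).1 := rfl
      have e2 : (dtgt g).2 = (src g).2 := rfl
      omega
    have h3 := bd_near (D := D) h2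
    refine ⟨edges_of_bd (by omega), fun hw => ?_⟩
    have := bd_wir hw
    omega
  have hsub : CB (dsrc e) m (dl '' (↑G : Set Edg)ᶜ \ {dl e}) y ⊆ D.dclu G := by
    intro u hu
    have h1 : Reach (dl '' (↑D.edges \ D.cfg G : Set Edg)) y u := by
      refine Reach.mono ?_ hu
      rintro _ ⟨⟨⟨g, hg1, rfl⟩, _⟩, hg3⟩
      obtain ⟨h2, h3⟩ := hin g hg3
      exact ⟨g, ⟨h2, fun h => h.elim hg1 h3⟩, rfl⟩
    rw [reach_dl] at h1
    obtain ⟨g, hg, hgy⟩ := hyc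
    exact ⟨g, hg, hgy.trans h1⟩
  unfold XD XE
  rw [src_dl]
  refine ⟨y, z, ?_, fun h => hz (hsub h), ?_, ?_⟩
  · unfold En
    rw [src_dl, tgt_dl]
    rcases hyz with ⟨h1, h2⟩ | ⟨h1, h2⟩
    · exact Or.inl ⟨h1, h2⟩
    · exact Or.inr ⟨h1, h2⟩
  · obtain ⟨g0, hg0, hg0y⟩ := hyc
    have h1 : Reach (dl '' (↑D.edges \ D.cfg G : Set Edg)) y g0 := reach_dl.2 hg0y.symm
    have h2 : (m : ℤ) ≤ sd g0 (dsrc e) := by
      have h3 : (m : ℤ) + 2 ≤ sd g0 (src e) := outer_far hg0 hmj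
      rw [le_sd_iff] at h3 ⊢
      rw [sd_le_iff] at hcs
      omega
    obtain ⟨w', hw'1, hw'2⟩ := exitBox (c := dsrc e) (m := m) h2 h1
      ((face_near hye).2.trans hm0)
    refine ⟨w', hw'1, Reach.mono ?_ hw'2⟩
    rintro _ ⟨⟨g, ⟨_, hg2⟩, rfl⟩, hg3⟩
    refine ⟨⟨⟨g, fun h => hg2 (Or.inl h), rfl⟩, ?_⟩, hg3⟩
    intro h
    have : g = e := dl.injective h
    exact hg2 (Or.inl (this ▸ heG))
  · have h1 : Reach (dl '' {g | g ∈ D.edges ∧ g ∉ D.cfg F ∧ dsrc g ∉ D.dclu G ∧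
        dtgt g ∉ D.dclu G}) z w := reach_dl.2 hzw
    obtain ⟨w', hw'1, hw'2⟩ := exitBox (c := dsrc e) (m := m) hwc h1
      ((face_near hze).2.trans hm0)
    refine ⟨w', hw'1, Reach.mono ?_ hw'2⟩
    rintro _ ⟨⟨g, ⟨hg1, hg2, hg3, hg4⟩, rfl⟩, hg5⟩
    refine ⟨⟨⟨⟨g, fun h => hg2 (Or.inl h), rfl⟩, ?_⟩, ?_, ?_⟩, hg5⟩
    · intro h
      have hge : g = e := dl.injective h
      rw [hge] at hg3 hg4
      rcases hye with h | h
      · exact hg3 (h ▸ hyc)
      · exact hg4 (h ▸ hyc)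
    · rw [src_dl]; exact fun h => hg3 (hsub h)
    · rw [tgt_dl]; exact fun h => hg4 (hsub h)

/-- **A state of the upper path only.** -/
theorem og_det {D : Dm} (hD : D.Ok) {ρ : ℕ} (hρ : 1 ≤ ρ) {F B G : Finset Edg} (hFB : F ⊆ B)
    (hBG : B ⊆ G) (hG : G ⊆ D.edges) {x : Vtx} (hxb : 8 * (ρ : ℤ) ≤ D.bd x)
    (hbad : ¬ BadV D ρ F G) {q : Q4} (h : ((x, q) : St) ∈ OG D F G) :
    ∃ e ∈ D.edges, nrm x e ≤ ρ + 1 ∧ (e ∈ G ∧ e ∉ F) ∧
      (1 ≤ nrm x e / 8 → XE e (nrm x e / 8) ↑F ↑G) ∧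
      (1 ≤ nrm x e / 8 → T2 x 1 (nrm x e / 8) ↑G) ∧
      T2 x (2 * nrm x e + 2) (7 * ρ) ↑B := by
  obtain ⟨e, heG, heF, x', v, y, hxv, hy, hx', hv, hyc, hvx⟩ :=
    og_edge hD (hFB.trans hBG) hG h
  have hvx' : sd v x < ρ := by
    by_contra hc
    exact hbad ⟨e, heG, heF, x', v, y, hxv, hy, hx', hv, hyc, x, not_lt.1 hc, hvx⟩
  have hx1 : sd x' (src e) ≤ 1 := by
    rcases hxv with ⟨h, _⟩ | ⟨h, _⟩
    · exact end_near (Or.inl h)
    · exact end_near (Or.inr h)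
  have hv1 : sd v (src e) ≤ 1 := by
    rcases hxv with ⟨_, h⟩ | ⟨_, h⟩
    · exact end_near (Or.inr h)
    · exact end_near (Or.inl h)
  have hy1 := (face_near hy).1
  have hN := nrm_sd x e
  have t1 := sd_tri (src e) v x
  rw [sd_comm (src e) v] at t1
  have t2 := sd_tri v (src e) x
  have t3 := sd_tri x' (src e) x
  have t4 := sd_tri y (src e) x
  have hNρ : nrm x e ≤ ρ := by omega
  have hρ0 : (1 : ℤ) ≤ ρ := by exact_mod_cast hρ
  have hbe : D.bd x - nrm x e ≤ D.bd (src e) := bd_near (le_of_eq hN.symm)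
  obtain ⟨g0, hg0, hg0f⟩ := h.2.2
  refine ⟨e, hG heG, by omega, ⟨heG, fun h => heF (Or.inl h)⟩, ?_, ?_, ?_⟩
  · intro hm
    refine xe_of heF hxv hx' hv hvx hm (by omega) ?_
    change ((nrm x e / 8 : ℕ) : ℤ) ≤ sd x (src e)
    rw [sd_comm x (src e)]
    omega
  · intro hm
    refine t2_of (H := {g | g ∈ D.cfg G ∧ src g ∉ D.clu F ∧ tgt g ∉ D.clu F})
      (H' := ↑D.edges \ D.cfg G) (x := x) (w := v) (y := face ((x, q) : St)) (g := g0) hm ?_ ?_
      hvx.symm ?_ ?_ ?_ hg0f.symm ?_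
    · rw [sd_le_iff]; simp
    · omega
    · rintro g ⟨h1 | h1, _⟩ h2
      · exact h1
      · exact absurd h1 (no_wir (D := D) (c := x) (m := nrm x e / 8) (by omega) h2)
    · have := face_x x q
      push_cast
      omega
    · exact outer_far hg0 (by omega)
    · rintro g ⟨_, h1⟩ _ h2
      exact h1 (Or.inl h2)
  · refine t2_out (D := D) (x := x') (y := y) (by omega) (by push_cast; omega) ?_ ?_
      (Pool.Agent.N144.EW.clu_mono hFB hx')
      (Pool.Agent.N144.EW.dclu_anti hBG hyc)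
    · push_cast
      omega
    · push_cast
      omega

/-- **A state of the lower path only.** -/
theorem of_det {D : Dm} (hD : D.Ok) {ρ : ℕ} (hρ : 1 ≤ ρ) {F B G : Finset Edg} (hFB : F ⊆ B)
    (hBG : B ⊆ G) (hG : G ⊆ D.edges) {x : Vtx} (hxb : 8 * (ρ : ℤ) ≤ D.bd x)
    (hbad : ¬ BadW D ρ F G) {q : Q4} (h : ((x, q) : St) ∈ OF D F G) :
    ∃ e ∈ D.edges, nrm x e ≤ ρ + 1 ∧ (e ∈ G ∧ e ∉ F) ∧
      (1 ≤ nrm x e / 8 → XD e (nrm x e / 8) ↑F ↑G) ∧
      (1 ≤ nrm x e / 8 → T2 x 1 (nrm x e / 8) ↑F) ∧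
      T2 x (2 * nrm x e + 2) (7 * ρ) ↑B := by
  obtain ⟨e, heG, heF, x', y, z, hxe, hyz, hx', hyc, hz, hzf⟩ :=
    of_edge hD (hFB.trans hBG) hG h
  set f : Vtx := face ((x, q) : St) with hf
  have hzf' : sd z f < ρ := by
    by_contra hc
    exact hbad ⟨e, heG, heF, x', y, z, hxe, hyz, hx', hyc, hz, f, not_lt.1 hc, hzf⟩
  have hye : y = dsrc e ∨ y = dtgt e := hyz.imp And.left And.left
  have hze : z = dsrc e ∨ z = dtgt e := (hyz.imp And.right And.right).symm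
  have hx1 : sd x' (src e) ≤ 1 := end_near hxe
  have hy1 := (face_near hye).1
  have hz1 := (face_near hze).1
  have hds : sd (dsrc e) (src e) ≤ 1 := (face_near (Or.inl rfl)).1
  have hf1 := face_x x q
  rw [← hf] at hf1
  have hN := nrm_sd x e
  have t1 := sd_tri (src e) z x
  rw [sd_comm (src e) z] at t1
  have t2 := sd_tri z f x
  have t3 := sd_tri x' (src e) x
  have t4 := sd_tri y (src e) x
  have t5 := sd_tri z (src e) x
  have t6 := sd_tri (src e) (dsrc e) f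
  have t7 := sd_tri (src e) f x
  rw [sd_comm (src e) (dsrc e)] at t6
  have hNρ : nrm x e ≤ ρ + 1 := by omega
  have hρ0 : (1 : ℤ) ≤ ρ := by exact_mod_cast hρ
  have hbe : D.bd x - nrm x e ≤ D.bd (src e) := bd_near (le_of_eq hN.symm)
  refine ⟨e, hG heG, hNρ, ⟨heG, fun h => heF (Or.inl h)⟩, ?_, ?_, ?_⟩
  · intro hm
    refine xd_of heG hyz hyc hz hzf hm (by omega) ?_
    rw [sd_comm f (dsrc e)]
    omega
  · intro hm
    refine t2_of (H := D.cfg F) (H' := {g | g ∈ D.edges ∧ g ∉ D.cfg F ∧ dsrc g ∉ D.dclu G ∧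
      dtgt g ∉ D.dclu G}) (x := x) (w := (0, 0)) (y := f) (g := z) hm ?_ ?_
      (Reach.symm h.1) ?_ ?_ ?_ hzf.symm ?_
    · rw [sd_le_iff]; simp
    · exact zero_far (D := D) (by omega)
    · rintro g (h1 | h1) h2
      · exact h1
      · exact absurd h1 (no_wir (D := D) (c := x) (m := nrm x e / 8) (by omega) h2)
    · push_cast
      omega
    · have t8 := sd_tri (src e) z x
      rw [sd_comm (src e) z] at t8
      omega
    · rintro g ⟨_, h1, _⟩ _ h2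
      exact h1 (Or.inl h2)
  · refine t2_out (D := D) (x := x') (y := y) (by omega) (by push_cast; omega) ?_ ?_
      (Pool.Agent.N144.EW.clu_mono hFB hx')
      (Pool.Agent.N144.EW.dclu_anti hBG hyc)
    · push_cast
      omega
    · push_cast
      omega

end Pool.Agent.N322.EW
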