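import Pool.Agent.N322.EW.ProbL

/-!
Project EW, part 11 (helper322): a given vertex of the bulk is rarely visited by exactly one of the
two paths (if there are no long excursions).
-/

set_option autoImplicit false

namespace Pool.Agent.N322.EW

open H974 H12S H389NS H984N H984P H342P Finset
open Pool.Agent.N116.EW Pool.Agent.N144.EW
open Pool.Agent.N861.EW (Lc PC_nonneg PC_le_one PC_or_le PC_exists_le)

/-- The event at one edge. -/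
def Ev (X : Edg → ℕ → Set Edg → Set Edg → Prop) (Y : Finset Edg → Finset Edg → Finset Edg)
    (b : Bool) (x : Vtx) (ρ : ℕ) (e : Edg) (F G : Finset Edg) : Prop :=
  (e ∈ G ∧ e ∉ F) ∧ (1 ≤ nrm x e / 8 → X e (nrm x e / 8) ↑F ↑G) ∧
    (1 ≤ nrm x e / 8 → T2 x 1 (nrm x e / 8) ↑(Y F G)) ∧
    T2 x (2 * nrm x e + 2) (7 * ρ) ↑(bs b F G)

/-- The constant. -/
noncomputable def Kc (M C C' : ℝ) : ℝ :=
  1 / 2 * ((M + 1) * (16 : ℝ) ^ (5 / 4 : ℝ) * ((C + 1) * (16 : ℝ) ^ (1 / 4 : ℝ)) * C') * 66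

theorem Kc_pos {M C C' : ℝ} (hM : 0 < M) (hC : 0 < C) (hC' : 0 < C') : 0 < Kc M C C' := by
  unfold Kc
  positivity

theorem type_sum {X : Edg → ℕ → Set Edg → Set Edg → Prop} (hX : Loc X)
    {Y : Finset Edg → Finset Edg → Finset Edg} (hY : Rul Y) {b : Bool} {D : Dm} {η : ℝ}
    (hη0 : 0 ≤ η) (hη1 : η ≤ 1) {x : Vtx} {ρ : ℕ} (hρ : 1 ≤ ρ) (hxb : 8 * (ρ : ℤ) ≤ D.bd x)
    {M C C' : ℝ} (hM : 0 < M) (hC : 0 < C) (hC' : 0 < C') (hA : AnnUp C')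
    (hPX : ∀ e : Edg, nrm x e ≤ ρ + 1 → 1 ≤ nrm x e / 8 →
      PC b η D.edges (fun F G => X e (nrm x e / 8) ↑F ↑G) ≤
      M * ((nrm x e / 8 : ℕ) : ℝ) ^ (-(5 / 4 : ℝ)))
    (hPY : ∀ m : ℕ, 1 ≤ m → m ≤ (ρ + 1) / 8 →
      PC b η D.edges (fun F G => T2 x 1 m ↑(Y F G)) ≤ C * (m : ℝ) ^ (-(1 / 4 : ℝ))) :
    PC b η D.edges (fun F G => ∃ e ∈ D.edges.filter (fun e => nrm x e ≤ ρ + 1),
      Ev X Y b x ρ e F G) ≤ Kc M C C' * (η * (ρ : ℝ) ^ (1 / 2 : ℝ)) := by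
  refine (PC_exists_le hη0 hη1 D.edges _ _).trans ?_
  have h1 : ∀ e ∈ D.edges.filter (fun e => nrm x e ≤ ρ + 1),
      PC b η D.edges (Ev X Y b x ρ e) ≤
      (η / 2 * ((M + 1) * (16 : ℝ) ^ (5 / 4 : ℝ) * ((C + 1) * (16 : ℝ) ^ (1 / 4 : ℝ)) * C') *
        (ρ : ℝ) ^ (-(1 / 4 : ℝ))) * ((nrm x e : ℝ) + 1) ^ (-(5 / 4 : ℝ)) := by
    intro e he
    rw [mem_filter] at he
    exact edge hX hY hη0 hη1 hρ hxb he.1 he.2 hM hC hC' hA (hPX e he.2)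
      (fun h => hPY _ h (Nat.div_le_div_right he.2))
  refine (Finset.sum_le_sum h1).trans ?_
  rw [← Finset.mul_sum]
  have hρp : (0 : ℝ) < ρ := by exact_mod_cast hρ
  have e1 : (ρ : ℝ) ^ (-(1 / 4 : ℝ)) * (ρ : ℝ) ^ (3 / 4 : ℝ) = (ρ : ℝ) ^ (1 / 2 : ℝ) := by
    rw [← Real.rpow_add hρp]
    norm_num
  calc (η / 2 * ((M + 1) * (16 : ℝ) ^ (5 / 4 : ℝ) * ((C + 1) * (16 : ℝ) ^ (1 / 4 : ℝ)) * C') *
        (ρ : ℝ) ^ (-(1 / 4 : ℝ))) *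
        ∑ e ∈ D.edges.filter (fun e => nrm x e ≤ ρ + 1), ((nrm x e : ℝ) + 1) ^ (-(5 / 4 : ℝ))
      ≤ (η / 2 * ((M + 1) * (16 : ℝ) ^ (5 / 4 : ℝ) * ((C + 1) * (16 : ℝ) ^ (1 / 4 : ℝ)) * C') *
        (ρ : ℝ) ^ (-(1 / 4 : ℝ))) * (66 * (ρ : ℝ) ^ (3 / 4 : ℝ)) :=
        mul_le_mul_of_nonneg_left (sum_J x hρ D.edges) (by positivity)
    _ = Kc M C C' * (η * ((ρ : ℝ) ^ (-(1 / 4 : ℝ)) * (ρ : ℝ) ^ (3 / 4 : ℝ))) := by
        unfold Kc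
        ring
    _ = _ := by rw [e1]

theorem ceil_eta {n η t : ℝ} (hn : 1 ≤ n) (hη0 : 0 ≤ η) (hηt : η * n ^ (3 / 4 : ℝ) ≤ t / 2) :
    η * ((⌈n⌉₊ : ℕ) : ℝ) ^ (3 / 4 : ℝ) ≤ t := by
  have h9 : ((⌈n⌉₊ : ℕ) : ℝ) ≤ 2 * n := by
    have := Nat.ceil_lt_add_one (by linarith : 0 ≤ n)
    linarith
  have h10 : ((⌈n⌉₊ : ℕ) : ℝ) ^ (3 / 4 : ℝ) ≤ 2 * n ^ (3 / 4 : ℝ) := by
    calc ((⌈n⌉₊ : ℕ) : ℝ) ^ (3 / 4 : ℝ) ≤ (2 * n) ^ (3 / 4 : ℝ) :=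
          Real.rpow_le_rpow (by positivity) h9 (by norm_num)
      _ = 2 ^ (3 / 4 : ℝ) * n ^ (3 / 4 : ℝ) :=
          Real.mul_rpow (by norm_num) (by linarith)
      _ ≤ 2 * n ^ (3 / 4 : ℝ) := by
          refine mul_le_mul_of_nonneg_right ?_ (by positivity)
          calc (2 : ℝ) ^ (3 / 4 : ℝ) ≤ 2 ^ (1 : ℝ) :=
                Real.rpow_le_rpow_of_exponent_le (by norm_num) (by norm_num)
            _ = 2 := Real.rpow_one 2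
  have h11 := mul_le_mul_of_nonneg_left h10 hη0
  linarith

/-- **EW11**, from the critical two-arm bound in annuli. -/
theorem locA (hAnn : ∃ C : ℝ, 0 < C ∧ AnnUp C) (h1 : ∀ b, S_XE b) (h2 : ∀ b, S_XD b)
    (h3 : ∀ b, S_T2 b) : S_LOC := by
  intro κ _
  obtain ⟨C', hC', hA⟩ := hAnn
  have e1 : ∀ b, ∃ M t : ℝ, 0 < M ∧ 0 < t ∧ UB XE b M t := fun b => ub_XE (h1 b)
  have e2 : ∀ b, ∃ M t : ℝ, 0 < M ∧ 0 < t ∧ UB XD b M t := fun b => ub_XD (h2 b)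
  choose M1 t1 hM1 ht1 hU1 using e1
  choose M2 t2 hM2 ht2 hU2 using e2
  choose M3 t3 hM3 ht3 hU3 using h3
  set T : ℝ := min (min (min (t1 true) (t1 false)) (min (t2 true) (t2 false)))
    (min (t3 true) (t3 false)) with hT
  have hT0 : 0 < T := lt_min (lt_min (lt_min (ht1 _) (ht1 _)) (lt_min (ht2 _) (ht2 _)))
    (lt_min (ht3 _) (ht3 _))
  have hTt1 : ∀ b, T ≤ t1 b := by
    intro b
    refine ((min_le_left _ _).trans (min_le_left _ _)).trans ?_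
    cases b
    · exact min_le_right _ _
    · exact min_le_left _ _
  have hTt2 : ∀ b, T ≤ t2 b := by
    intro b
    refine ((min_le_left _ _).trans (min_le_right _ _)).trans ?_
    cases b
    · exact min_le_right _ _
    · exact min_le_left _ _
  have hTt3 : ∀ b, T ≤ t3 b := by
    intro b
    refine (min_le_right _ _).trans ?_
    cases b
    · exact min_le_right _ _
    · exact min_le_left _ _
  have p1 : ∀ b, 0 < Kc (M1 b) (M3 b) C' := fun b => Kc_pos (hM1 b) (hM3 b) hC'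
  have p2 : ∀ b, 0 < Kc (M2 b) (M3 b) C' := fun b => Kc_pos (hM2 b) (hM3 b) hC'
  refine ⟨(Kc (M1 true) (M3 true) C' + Kc (M1 false) (M3 false) C') +
    (Kc (M2 true) (M3 true) C' + Kc (M2 false) (M3 false) C'), T / 2, ?_, by linarith,
    fun n D hn hs η hη0 hη1 hηt x ρ _ hρ hxb b => ?_⟩
  · have := p1 true
    have := p1 false
    have := p2 true
    have := p2 false
    linarith
  have hD := hs.ok
  have hok := cw_ok hη0 hη1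
  have hρ0 : (1 : ℤ) ≤ ρ := by exact_mod_cast hρ
  have hN1 : 1 ≤ ⌈n⌉₊ := Nat.one_le_ceil_iff.2 (by linarith)
  -- all radii are at most `⌈n⌉₊`
  have hρn : ρ ≤ ⌈n⌉₊ := by
    have h9 : (ρ : ℝ) ≤ n := by
      obtain ⟨_, _, b3, b4⟩ := bd_le (D := D) (c := x)
      have h10 : (ρ : ℤ) ≤ D.h := by omega
      have h11 : ((ρ : ℤ) : ℝ) ≤ (D.h : ℝ) := by exact_mod_cast h10
      have := hs.h_le
      push_cast at h11
      linarith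
    have : (ρ : ℝ) ≤ (⌈n⌉₊ : ℝ) := h9.trans (Nat.le_ceil n)
    exact_mod_cast this
  have hbe : ∀ e : Edg, nrm x e ≤ ρ + 1 → ((nrm x e / 8 : ℕ) : ℤ) + 2 ≤ D.bd (src e) := by
    intro e he
    have hNs := nrm_sd x e
    have hbe : D.bd x - nrm x e ≤ D.bd (src e) := bd_near (le_of_eq hNs.symm)
    omega
  have hηX : ∀ b, η * ((⌈n⌉₊ : ℕ) : ℝ) ^ (3 / 4 : ℝ) ≤ t1 b := fun b =>
    ceil_eta hn hη0 (hηt.trans (by have := hTt1 b; linarith))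
  have hηD : ∀ b, η * ((⌈n⌉₊ : ℕ) : ℝ) ^ (3 / 4 : ℝ) ≤ t2 b := fun b =>
    ceil_eta hn hη0 (hηt.trans (by have := hTt2 b; linarith))
  have hηT : ∀ b, η * ((⌈n⌉₊ : ℕ) : ℝ) ^ (3 / 4 : ℝ) ≤ t3 b := fun b =>
    ceil_eta hn hη0 (hηt.trans (by have := hTt3 b; linarith))
  have hT2 : ∀ m : ℕ, 1 ≤ m → m ≤ (ρ + 1) / 8 →
      PC b η D.edges (fun F _ => T2 x 1 m ↑F) ≤ M3 b * (m : ℝ) ^ (-(1 / 4 : ℝ)) ∧
      PC b η D.edges (fun _ G => T2 x 1 m ↑G) ≤ M3 b * (m : ℝ) ^ (-(1 / 4 : ℝ)) := by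
    intro m hm hmρ
    exact hU3 b ⌈n⌉₊ η hN1 hη0 hη1 (hηT b) x m hm (by omega) D.edges
      fun g hg => blk_edges (k := m) (by omega) hg
  have hG := type_sum loc_XE rul_snd (b := b) hη0 hη1 hρ hxb (hM1 b) (hM3 b) hC' hA
    (fun e he hm => hU1 b ⌈n⌉₊ η hN1 hη0 hη1 (hηX b) D e _ hm (by omega) (hbe e he))
    (fun m hm hmρ => (hT2 m hm hmρ).2)
  have hF := type_sum loc_XD rul_fst (b := b) hη0 hη1 hρ hxb (hM2 b) (hM3 b) hC' hA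
    (fun e he hm => hU2 b ⌈n⌉₊ η hN1 hη0 hη1 (hηD b) D e _ hm (by omega) (hbe e he))
    (fun m hm hmρ => (hT2 m hm hmρ).1)
  have hinc : PC b η D.edges (fun F G => (¬ BadV D ρ F G ∧ ¬ BadW D ρ F G) ∧
      ∃ q : Q4, ((x, q) : St) ∈ OG D F G ∨ ((x, q) : St) ∈ OF D F G) ≤
      PC b η D.edges (fun F G =>
        (∃ e ∈ D.edges.filter (fun e => nrm x e ≤ ρ + 1), Ev XE (fun _ G => G) b x ρ e F G) ∨
        (∃ e ∈ D.edges.filter (fun e => nrm x e ≤ ρ + 1), Ev XD (fun F _ => F) b x ρ e F G)) := by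
    unfold PC
    refine Pr_mono hok fun K hK => ?_
    rintro ⟨⟨hV, hW⟩, q, hq | hq⟩
    · left
      obtain ⟨e, he, a1, a2, a3, a4, a5⟩ := og_det hD hρ (lo_sub_ba b K) (ba_sub_up b K)
        (up_sub hK) hxb hV hq
      refine ⟨e, mem_filter.2 ⟨he, a1⟩, a2, a3, a4, ?_⟩
      rw [bs_ba]
      exact a5
    · right
      obtain ⟨e, he, a1, a2, a3, a4, a5⟩ := of_det hD hρ (lo_sub_ba b K) (ba_sub_up b K)
        (up_sub hK) hxb hW hq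
      refine ⟨e, mem_filter.2 ⟨he, a1⟩, a2, a3, a4, ?_⟩
      rw [bs_ba]
      exact a5
  refine hinc.trans ((PC_or_le hη0 hη1 D.edges _ _).trans ((add_le_add hG hF).trans ?_))
  rw [← add_mul]
  refine mul_le_mul_of_nonneg_right ?_ (by positivity)
  have q1 := p1 true
  have q2 := p1 false
  have q3 := p2 true
  have q4 := p2 false
  cases b <;> linarith

end Pool.Agent.N322.EW
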