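import Pool.Agent.N322.EW.DetL
import Pool.Agent.N144.EW.Sum
import Pool.Agent.N861.EW.Pair

/-!
Project EW, part 11 (helper322): probabilistic part. Independence of the flip of an edge, of the
mixed arms at this edge, of the two arms at the vertex and of the two arms beyond; the sum over
the edges.
-/

set_option autoImplicit false

namespace Pool.Agent.N322.EW

open H974 H12S H389NS H984N H984P H342P Finset
open Pool.Agent.N116.EW Pool.Agent.N144.EW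
open Pool.Agent.N861.EW (Lc PC_nonneg PC_le_one PC_or_le PC_exists_le PC_local PC_indep
  PC_lo_true PC_up_false Lc_flip sum_nrm)

/-- The base configuration. -/
def bs (b : Bool) (F G : Finset Edg) : Finset Edg := if b then F else G

theorem bs_ba (b : Bool) (K : Finset (Edg × Bool)) : bs b (lo b K) (up b K) = ba K := by
  cases b <;> rfl

theorem PC_bs (b : Bool) (η : ℝ) (S : Finset Edg) (A : Finset Edg → Prop) :
    PC b η S (fun F G => A (bs b F G)) = Pr (fun _ => (1 / 2 : ℝ)) S A := by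
  cases b
  · exact PC_up_false η S A
  · exact PC_lo_true η S A

theorem PC_flp {η : ℝ} (b : Bool) {S : Finset Edg} {e : Edg} (he : e ∈ S) :
    PC b η S (fun F G => e ∈ G ∧ e ∉ F) = η / 2 := pr_flip b he

/-! ### Locality -/

theorem lc_of_loc {X : Edg → ℕ → Set Edg → Set Edg → Prop} (hX : Loc X) (e : Edg) (m : ℕ) :
    Lc (blk (src e) (m + 2) \ {e}) (fun F G => X e m ↑F ↑G) := by
  intro F G
  apply hX
  intro g hg hge
  have hT : g ∈ blk (src e) (m + 2) \ {e} := Finset.mem_sdiff.2 ⟨hg, by simpa using hge⟩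
  simp only [Finset.mem_coe, Finset.mem_inter]
  exact ⟨(and_iff_left hT).symm, (and_iff_left hT).symm⟩

/-- A rule which commutes with restrictions. -/
def Rul (Y : Finset Edg → Finset Edg → Finset Edg) : Prop :=
  ∀ F G T, Y (F ∩ T) (G ∩ T) = Y F G ∩ T

theorem rul_fst : Rul (fun F _ => F) := fun _ _ _ => rfl

theorem rul_snd : Rul (fun _ G => G) := fun _ _ _ => rfl

theorem rul_bs (b : Bool) : Rul (bs b) := by
  intro F G T
  cases b <;> rfl

theorem lc_T2 {Y : Finset Edg → Finset Edg → Finset Edg} (hY : Rul Y) (c : Vtx) (r m : ℕ) :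
    Lc (blk c m \ blk c r) (fun F G => T2 c r m ↑(Y F G)) := by
  intro F G
  have e1 : (↑(Y F G) : Set Edg) ∩ (↑(blk c m) \ ↑(blk c r)) =
      (↑(Y F G ∩ (blk c m \ blk c r)) : Set Edg) ∩ (↑(blk c m) \ ↑(blk c r)) := by
    ext g
    simp only [Set.mem_inter_iff, Set.mem_sdiff, coe_inter, coe_sdiff]
    tauto
  have e2 : ((↑(blk c m) \ ↑(blk c r)) \ (↑(Y F G) : Set Edg)) =
      (↑(blk c m) \ ↑(blk c r)) \ (↑(Y F G ∩ (blk c m \ blk c r)) : Set Edg) := by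
    ext g
    simp only [Set.mem_inter_iff, Set.mem_sdiff, coe_inter, coe_sdiff]
    tauto
  simp only
  rw [hY F G]
  unfold T2
  rw [← e1, ← e2]

theorem lc_imp {P : Prop} {T : Finset Edg} {A : Finset Edg → Finset Edg → Prop} (h : Lc T A) :
    Lc T (fun F G => P → A F G) := fun F G => imp_congr_right fun _ => h F G

/-- Four independent events. -/
theorem four {b : Bool} {η : ℝ} {S T1 T2 T3 T4 : Finset Edg} (h1 : T1 ⊆ S) (h2 : T2 ⊆ S)
    (h3 : T3 ⊆ S) (h4 : T4 ⊆ S) (d12 : Disjoint T1 T2) (d13 : Disjoint T1 T3)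
    (d14 : Disjoint T1 T4) (d23 : Disjoint T2 T3) (d24 : Disjoint T2 T4) (d34 : Disjoint T3 T4)
    {A1 A2 A3 A4 : Finset Edg → Finset Edg → Prop} (l1 : Lc T1 A1) (l2 : Lc T2 A2)
    (l3 : Lc T3 A3) (l4 : Lc T4 A4) :
    PC b η S (fun F G => A1 F G ∧ A2 F G ∧ A3 F G ∧ A4 F G) =
      PC b η S A1 * (PC b η S A2 * (PC b η S A3 * PC b η S A4)) := by
  have l34 : Lc (T3 ∪ T4) (fun F G => A3 F G ∧ A4 F G) := l3.and l4
  have l234 : Lc (T2 ∪ (T3 ∪ T4)) (fun F G => A2 F G ∧ A3 F G ∧ A4 F G) := l2.and l34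
  rw [← PC_indep h3 h4 d34 l3 l4,
    ← PC_indep h2 (union_subset h3 h4) (disjoint_union_right.2 ⟨d23, d24⟩) l2 l34,
    ← PC_indep h1 (union_subset h2 (union_subset h3 h4))
      (disjoint_union_right.2 ⟨d12, disjoint_union_right.2 ⟨d13, d14⟩⟩) l1 l234]

/-! ### Powers -/

theorem pw {N : ℕ} {a M P : ℝ} (ha : 0 ≤ a) (hM : 0 < M) (hP1 : P ≤ 1)
    (hP : 1 ≤ N / 8 → P ≤ M * ((N / 8 : ℕ) : ℝ) ^ (-a)) :
    P ≤ (M + 1) * ((16 : ℝ) ^ a * ((N : ℝ) + 1) ^ (-a)) := by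
  have hu : (0 : ℝ) < (N : ℝ) + 1 := by positivity
  have e : (((N : ℝ) + 1) / 16) ^ (-a) = (16 : ℝ) ^ a * ((N : ℝ) + 1) ^ (-a) := by
    rw [Real.div_rpow hu.le (by norm_num), Real.rpow_neg (by norm_num : (0 : ℝ) ≤ 16)]
    field_simp
  rw [← e]
  have hpos : 0 ≤ (((N : ℝ) + 1) / 16) ^ (-a) := by positivity
  by_cases hm : 1 ≤ N / 8
  · have h1 : ((N : ℝ) + 1) / 16 ≤ ((N / 8 : ℕ) : ℝ) := by
      rw [div_le_iff₀ (by norm_num)]
      have : N + 1 ≤ (N / 8) * 16 := by omega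
      exact_mod_cast this
    have h2 : ((N / 8 : ℕ) : ℝ) ^ (-a) ≤ (((N : ℝ) + 1) / 16) ^ (-a) :=
      Real.rpow_le_rpow_of_nonpos (by positivity) h1 (by linarith)
    have h3 := hP hm
    nlinarith
  · have h1 : ((N : ℝ) + 1) / 16 ≤ 1 := by
      rw [div_le_iff₀ (by norm_num)]
      have : N + 1 ≤ 1 * 16 := by omega
      exact_mod_cast this
    have h2 : 1 ≤ (((N : ℝ) + 1) / 16) ^ (-a) :=
      Real.one_le_rpow_of_pos_of_le_one_of_nonpos (by positivity) h1 (by linarith)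
    nlinarith

/-! ### The critical annulus -/

theorem ann_T2 {C : ℝ} (hA : AnnUp C) {x : Vtx} {r R : ℕ} (hr : r + 1 ≤ R) {S : Finset Edg}
    (hS : blk x R ⊆ S) :
    Pr (fun _ => (1 / 2 : ℝ)) S (fun F => T2 x r R ↑F) ≤
      C * (((r + 1 : ℕ) : ℝ) / R) ^ (1 / 4 : ℝ) := by
  refine le_trans (Pr_mono (fun _ => ⟨by norm_num, by norm_num⟩) ?_)
    (hA (r + 1) R (by omega) hr x.1 x.2 S)
  rintro F _ ⟨⟨u, w, hu, hw, h⟩, ⟨f, g, hf, hg, h'⟩⟩
  refine ⟨⟨u, w, ?_, hw, h.mono Set.inter_subset_left⟩, ⟨f, g, ?_, hg, h'.mono ?_⟩⟩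
  · unfold inR at hu ⊢
    push_cast
    omega
  · exact hf
  · rintro e ⟨⟨h1, _⟩, h2⟩
    rw [Finset.mem_coe, Finset.mem_sdiff]
    exact ⟨hS h1, h2⟩

/-! ### The bound for one edge -/

theorem edge {X : Edg → ℕ → Set Edg → Set Edg → Prop} (hX : Loc X)
    {Y : Finset Edg → Finset Edg → Finset Edg} (hY : Rul Y) {b : Bool} {D : Dm} {η : ℝ}
    (hη0 : 0 ≤ η) (hη1 : η ≤ 1) {x : Vtx} {ρ : ℕ} (hρ : 1 ≤ ρ) (hxb : 8 * (ρ : ℤ) ≤ D.bd x)
    {e : Edg} (he : e ∈ D.edges) (hN : nrm x e ≤ ρ + 1) {M C C' : ℝ} (hM : 0 < M) (hC : 0 < C)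
    (hC' : 0 < C') (hA : AnnUp C')
    (hPX : 1 ≤ nrm x e / 8 → PC b η D.edges (fun F G => X e (nrm x e / 8) ↑F ↑G) ≤
      M * ((nrm x e / 8 : ℕ) : ℝ) ^ (-(5 / 4 : ℝ)))
    (hPY : 1 ≤ nrm x e / 8 → PC b η D.edges (fun F G => T2 x 1 (nrm x e / 8) ↑(Y F G)) ≤
      C * ((nrm x e / 8 : ℕ) : ℝ) ^ (-(1 / 4 : ℝ))) :
    PC b η D.edges (fun F G => (e ∈ G ∧ e ∉ F) ∧
      (1 ≤ nrm x e / 8 → X e (nrm x e / 8) ↑F ↑G) ∧
      (1 ≤ nrm x e / 8 → T2 x 1 (nrm x e / 8) ↑(Y F G)) ∧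
      T2 x (2 * nrm x e + 2) (7 * ρ) ↑(bs b F G)) ≤
    (η / 2 * ((M + 1) * (16 : ℝ) ^ (5 / 4 : ℝ) * ((C + 1) * (16 : ℝ) ^ (1 / 4 : ℝ)) * C') *
      (ρ : ℝ) ^ (-(1 / 4 : ℝ))) * ((nrm x e : ℝ) + 1) ^ (-(5 / 4 : ℝ)) := by
  have hNs := nrm_sd x e
  set N : ℕ := nrm x e with hNdef
  set m : ℕ := N / 8 with hm
  have hρ0 : (1 : ℤ) ≤ ρ := by exact_mod_cast hρ
  have hbe : D.bd x - N ≤ D.bd (src e) := bd_near (le_of_eq hNs.symm)
  have het : sd (tgt e) (src e) ≤ 1 := end_near (Or.inr rfl)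
  have sub2 : blk (src e) (m + 2) ⊆ D.edges := fun g hg =>
    blk_edges (k := m + 2) (by push_cast; omega) hg
  have sub3 : blk x m ⊆ D.edges := fun g hg => blk_edges (k := m) (by omega) hg
  have sub4 : blk x (7 * ρ) ⊆ D.edges := fun g hg =>
    blk_edges (k := 7 * ρ) (by push_cast; omega) hg
  have ein : e ∈ blk x (2 * N + 2) := by
    rw [blk_iff]
    have := sd_tri (tgt e) (src e) x
    push_cast
    omega
  have eout : e ∈ blk x m → m = 0 := by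
    intro h
    rw [blk_iff] at h
    have := h.1
    omega
  have key := four (b := b) (η := η) (S := D.edges) (T1 := {e})
    (T2 := blk (src e) (m + 2) \ {e}) (T3 := blk x m \ blk x 1)
    (T4 := blk x (7 * ρ) \ blk x (2 * N + 2))
    (by simpa using he) (sdiff_subset.trans sub2) (sdiff_subset.trans sub3)
    (sdiff_subset.trans sub4) ?_ ?_ ?_ ?_ ?_ ?_
    (Lc_flip e) (lc_imp (P := 1 ≤ m) (lc_of_loc hX e m)) (lc_imp (P := 1 ≤ m) (lc_T2 hY x 1 m))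
    (lc_T2 (rul_bs b) x (2 * N + 2) (7 * ρ))
  rotate_left
  · rw [disjoint_left]
    intro g h1 h2
    exact (mem_sdiff.1 h2).2 h1
  · rw [disjoint_left]
    intro g h1 h2
    rw [mem_singleton] at h1
    subst h1
    rw [mem_sdiff] at h2
    have h3 := eout h2.1
    have h4 := h2.1
    rw [h3, blk_iff] at h4
    apply h2.2
    rw [blk_iff]
    push_cast
    push_cast at h4
    omega
  · rw [disjoint_left]
    intro g h1 h2
    rw [mem_singleton] at h1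
    subst h1
    rw [mem_sdiff] at h2
    exact h2.2 ein
  · rw [disjoint_left]
    intro g h1 h2
    rw [mem_sdiff] at h1 h2
    have h3 := (blk_iff.1 h1.1).1
    have h4 := (blk_iff.1 h2.1).1
    rcases Nat.eq_zero_or_pos m with h5 | h5
    · apply h2.2
      have h6 := blk_iff.1 h2.1
      rw [h5] at h6
      rw [blk_iff]
      push_cast
      push_cast at h6
      omega
    · have h7 := sd_tri (src e) (src g) x
      rw [sd_comm (src e) (src g)] at h7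
      push_cast at h3
      omega
  · rw [disjoint_left]
    intro g h1 h2
    rw [mem_sdiff] at h1 h2
    apply h2.2
    have h3 := blk_iff.1 h1.1
    have h4 := sd_tri (src g) (src e) x
    have h5 := sd_tri (tgt g) (src e) x
    rw [blk_iff]
    push_cast
    push_cast at h3
    omega
  · rw [disjoint_left]
    intro g h1 h2
    rw [mem_sdiff] at h1 h2
    apply h2.2
    have h3 := blk_iff.1 h1.1
    rw [blk_iff]
    push_cast
    omega
  have q2 : PC b η D.edges (fun F G => 1 ≤ m → X e m ↑F ↑G) ≤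
      (M + 1) * ((16 : ℝ) ^ (5 / 4 : ℝ) * ((N : ℝ) + 1) ^ (-(5 / 4 : ℝ))) := by
    refine pw (by norm_num) hM (PC_le_one hη0 hη1 _ _) fun h => ?_
    refine le_trans (le_of_eq ?_) (hPX h)
    congr 1
    funext F G
    exact propext ⟨fun h' => h' h, fun h' _ => h'⟩
  have q3 : PC b η D.edges (fun F G => 1 ≤ m → T2 x 1 m ↑(Y F G)) ≤
      (C + 1) * ((16 : ℝ) ^ (1 / 4 : ℝ) * ((N : ℝ) + 1) ^ (-(1 / 4 : ℝ))) := by
    refine pw (by norm_num) hC (PC_le_one hη0 hη1 _ _) fun h => ?_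
    refine le_trans (le_of_eq ?_) (hPY h)
    congr 1
    funext F G
    exact propext ⟨fun h' => h' h, fun h' _ => h'⟩
  have hu : (0 : ℝ) < (N : ℝ) + 1 := by positivity
  have hρp : (0 : ℝ) < ρ := by exact_mod_cast hρ
  have q4 : PC b η D.edges (fun F G => T2 x (2 * N + 2) (7 * ρ) ↑(bs b F G)) ≤
      C' * (((N : ℝ) + 1) ^ (1 / 4 : ℝ) * (ρ : ℝ) ^ (-(1 / 4 : ℝ))) := by
    rw [PC_bs b η D.edges (fun F => T2 x (2 * N + 2) (7 * ρ) ↑F)]
    refine (ann_T2 hA (by omega) sub4).trans (mul_le_mul_of_nonneg_left ?_ hC'.le)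
    have e1 : ((N : ℝ) + 1) ^ (1 / 4 : ℝ) * (ρ : ℝ) ^ (-(1 / 4 : ℝ)) =
        (((N : ℝ) + 1) / ρ) ^ (1 / 4 : ℝ) := by
      rw [Real.div_rpow hu.le hρp.le, Real.rpow_neg hρp.le]
      exact (div_eq_mul_inv _ _).symm
    rw [e1]
    refine Real.rpow_le_rpow (by positivity) ?_ (by norm_num)
    push_cast
    rw [div_le_div_iff₀ (by positivity) hρp]
    have hN0 : (0 : ℝ) ≤ N := by positivity
    nlinarith
  have n2 : 0 ≤ PC b η D.edges (fun F G => 1 ≤ m → X e m ↑F ↑G) := PC_nonneg hη0 hη1 _ _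
  have n3 : 0 ≤ PC b η D.edges (fun F G => 1 ≤ m → T2 x 1 m ↑(Y F G)) :=
    PC_nonneg hη0 hη1 _ _
  have n4 : 0 ≤ PC b η D.edges (fun F G => T2 x (2 * N + 2) (7 * ρ) ↑(bs b F G)) :=
    PC_nonneg hη0 hη1 _ _
  rw [key, PC_flp b he]
  have s1 := mul_le_mul q3 q4 n4 (n3.trans q3)
  have s2 := mul_le_mul q2 s1 (mul_nonneg n3 n4) (n2.trans q2)
  have s3 := mul_le_mul_of_nonneg_left s2 (by positivity : 0 ≤ η / 2)
  refine s3.trans (le_of_eq ?_)
  have e2 : ((N : ℝ) + 1) ^ (-(1 / 4 : ℝ)) * ((N : ℝ) + 1) ^ (1 / 4 : ℝ) = 1 := by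
    rw [← Real.rpow_add hu]
    norm_num
  calc η / 2 * ((M + 1) * ((16 : ℝ) ^ (5 / 4 : ℝ) * ((N : ℝ) + 1) ^ (-(5 / 4 : ℝ))) *
        ((C + 1) * ((16 : ℝ) ^ (1 / 4 : ℝ) * ((N : ℝ) + 1) ^ (-(1 / 4 : ℝ))) *
        (C' * (((N : ℝ) + 1) ^ (1 / 4 : ℝ) * (ρ : ℝ) ^ (-(1 / 4 : ℝ))))))
      = (η / 2 * ((M + 1) * (16 : ℝ) ^ (5 / 4 : ℝ) * ((C + 1) * (16 : ℝ) ^ (1 / 4 : ℝ)) * C') *
        (ρ : ℝ) ^ (-(1 / 4 : ℝ))) * ((N : ℝ) + 1) ^ (-(5 / 4 : ℝ)) *
        (((N : ℝ) + 1) ^ (-(1 / 4 : ℝ)) * ((N : ℝ) + 1) ^ (1 / 4 : ℝ)) := by ring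
    _ = _ := by rw [e2, mul_one]

/-! ### The sum -/

theorem sum_J (x : Vtx) {ρ : ℕ} (hρ : 1 ≤ ρ) (S : Finset Edg) :
    ∑ e ∈ S.filter (fun e => nrm x e ≤ ρ + 1), ((nrm x e : ℝ) + 1) ^ (-(5 / 4 : ℝ)) ≤
      66 * (ρ : ℝ) ^ (3 / 4 : ℝ) := by
  set J := S.filter (fun e => nrm x e ≤ ρ + 1) with hJ
  have hρp : (1 : ℝ) ≤ ρ := by exact_mod_cast hρ
  rw [← Finset.sum_filter_add_sum_filter_not J (fun e => 1 ≤ nrm x e)]
  have h1 : ∑ e ∈ J.filter (fun e => 1 ≤ nrm x e), ((nrm x e : ℝ) + 1) ^ (-(5 / 4 : ℝ)) ≤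
      64 * (ρ : ℝ) ^ (3 / 4 : ℝ) := by
    calc ∑ e ∈ J.filter (fun e => 1 ≤ nrm x e), ((nrm x e : ℝ) + 1) ^ (-(5 / 4 : ℝ))
        ≤ ∑ e ∈ J.filter (fun e => 1 ≤ nrm x e), ((nrm x e : ℕ) : ℝ) ^ (-(5 / 4 : ℝ)) := by
          refine sum_le_sum fun e he => ?_
          have h2 : (1 : ℝ) ≤ nrm x e := by exact_mod_cast (mem_filter.1 he).2
          exact Real.rpow_le_rpow_of_nonpos (by linarith) (by linarith) (by norm_num)
      _ ≤ 32 * (((ρ + 1 : ℕ) : ℝ)) ^ (3 / 4 : ℝ) := by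
          refine sum_nrm x (ρ + 1) _ fun e he => ?_
          rw [mem_filter, hJ, mem_filter] at he
          exact ⟨he.2, he.1.2⟩
      _ ≤ 32 * (2 * (ρ : ℝ) ^ (3 / 4 : ℝ)) := by
          refine mul_le_mul_of_nonneg_left ?_ (by norm_num)
          calc (((ρ + 1 : ℕ) : ℝ)) ^ (3 / 4 : ℝ) ≤ (2 * (ρ : ℝ)) ^ (3 / 4 : ℝ) :=
                Real.rpow_le_rpow (by positivity) (by push_cast; linarith) (by norm_num)
            _ = 2 ^ (3 / 4 : ℝ) * (ρ : ℝ) ^ (3 / 4 : ℝ) :=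
                Real.mul_rpow (by norm_num) (by linarith)
            _ ≤ 2 * (ρ : ℝ) ^ (3 / 4 : ℝ) := by
                refine mul_le_mul_of_nonneg_right ?_ (by positivity)
                calc (2 : ℝ) ^ (3 / 4 : ℝ) ≤ 2 ^ (1 : ℝ) :=
                      Real.rpow_le_rpow_of_exponent_le (by norm_num) (by norm_num)
                  _ = 2 := Real.rpow_one 2
      _ = _ := by ring
  have h2 : ∑ e ∈ J.filter (fun e => ¬ 1 ≤ nrm x e), ((nrm x e : ℝ) + 1) ^ (-(5 / 4 : ℝ)) ≤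
      2 * (ρ : ℝ) ^ (3 / 4 : ℝ) := by
    have h3 : ∀ e ∈ J.filter (fun e => ¬ 1 ≤ nrm x e),
        ((nrm x e : ℝ) + 1) ^ (-(5 / 4 : ℝ)) ≤ 1 := by
      intro e he
      have h4 : nrm x e = 0 := by
        have := (mem_filter.1 he).2
        omega
      rw [h4]
      simp
    have h5 := Finset.sum_le_card_nsmul _ _ _ h3
    have h6 : (J.filter (fun e => ¬ 1 ≤ nrm x e)).card ≤ 2 := by
      have h7 : J.filter (fun e => ¬ 1 ≤ nrm x e) ⊆
          {((x.1, x.2, true) : Edg), ((x.1, x.2, false) : Edg)} := by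
        intro e he
        have h8 := (mem_filter.1 he).2
        unfold nrm at h8
        obtain ⟨a, b, c⟩ := e
        simp only at h8
        rw [mem_insert, mem_singleton]
        have h9 : a = x.1 := by omega
        have h10 : b = x.2 := by omega
        subst h9; subst h10
        cases c
        · right; rfl
        · left; rfl
      exact (card_le_card h7).trans card_le_two
    have h7 : (1 : ℝ) ≤ (ρ : ℝ) ^ (3 / 4 : ℝ) := Real.one_le_rpow hρp (by norm_num)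
    rw [nsmul_eq_mul, mul_one] at h5
    have h8 : ((J.filter (fun e => ¬ 1 ≤ nrm x e)).card : ℝ) ≤ 2 := by exact_mod_cast h6
    linarith
  linarith

end Pool.Agent.N322.EW
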